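import Pool.Agent.K.MP_6c8412_lc.C0

namespace Pool.Agent.Results.MP_6c8412_lc.ElemEquiv

open Pool.Agent.P.MP_6c8412_lc

universe u

theorem result (G H : Type u) [Group G] [Group H] (hG : IsInfGeneric G) (hH : IsInfGeneric H)
    (σ : OpForm 0) : groupVal G σ = groupVal H σ :=
  main G H hG hH σ

end Pool.Agent.Results.MP_6c8412_lc.ElemEquiv
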