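import Pool.Agent.K.MP_6c8412_lc.C1

namespace Pool.Agent.Results.MP_6c8412_lc.NonIsoCountable

open Pool.Agent.P.MP_6c8412_lc

theorem result : ∃ (G H : Type) (_ : Group G) (_ : Group H), Countable G ∧ Countable H ∧
    IsInfGeneric G ∧ IsInfGeneric H ∧ IsEmpty (G ≃* H) ∧
    ∀ σ : OpForm 0, groupVal G σ = groupVal H σ :=
  main2

end Pool.Agent.Results.MP_6c8412_lc.NonIsoCountable
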